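import Pool.Agent.Mg.X8299d6.G15d050

namespace Pool.Agent.Results.MP_8299d6_al.ExactSL4

open Pool.Agent.MP_8299d6_al

theorem result (Γ : Subgroup (Matrix.SpecialLinearGroup (Fin 4) ℚ))
    (hΓ : Γ.Commensurable (Matrix.SpecialLinearGroup.map (Int.castRingHom ℚ)).range) :
    abscissa Γ = ((2 / 3 : ℝ) : EReal) :=
  Up.main2 Γ hΓ

end Pool.Agent.Results.MP_8299d6_al.ExactSL4
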