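import Pool.Agent.Mg.F810665.G256377

open NumberField

namespace Pool.Agent.Results.MP_8299d6_al.LowerSL

open Pool.Agent.MP_8299d6_al

theorem result (k : Type) [Field k] [NumberField k] (d : ℕ) (hd : 2 ≤ d)
    (Γ : Subgroup (Matrix.SpecialLinearGroup (Fin d) k))
    (hΓ : Γ.Commensurable (Matrix.SpecialLinearGroup.map (algebraMap (𝓞 k) k)).range) :
    (((((d ^ 2 / 4 : ℕ) : ℝ) + 1) / ((d : ℝ) ^ 2 - 1) : ℝ) : EReal) ≤ abscissa Γ :=
  le_abscissa (main k d hd Γ hΓ)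

end Pool.Agent.Results.MP_8299d6_al.LowerSL
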