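import Pool.Agent.Mg.X8299d6.G06bc4c

namespace Pool.Agent.Results.MP_8299d6_al.UpperHalf

open Pool.Agent.MP_8299d6_al

theorem result (d : ℕ) (hd : 5 ≤ d) (Γ : Subgroup (Matrix.SpecialLinearGroup (Fin d) ℚ))
    (hΓ : Γ.Commensurable (Matrix.SpecialLinearGroup.map (Int.castRingHom ℚ)).range) :
    abscissa Γ ≤ ((1 / 2 : ℝ) : EReal) :=
  Up.main3 d hd Γ hΓ

end Pool.Agent.Results.MP_8299d6_al.UpperHalf
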